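import Pool.Agent.N36.DE.Alg2
import Pool.Agent.N36.DE.Func

set_option autoImplicit false

/-!
# The commutator-times-Euler operator on `B_4` is not injective

`A_m = ℂ⟨x_1, …, x_m⟩`, `L_1 = A_m`, `L_{k+1} = [A_m, L_k]`, `B_k = L_k / L_{k+1}`, and `δ` is the
derivation of `A_{n+2}` with `δ(x_i) = [x_{n+1}, x_{n+2}] x_i`. The question is whether the map `D`
induced by `δ` is injective on the parts of `B_k(A_{n+2})` of multidegree `(d_1, …, d_n, 0, 0)`. It is
not: for `k = 4`, `n = 2` and `d = (3, 2)` the class of `w = [x_1, [x_1, x_2]^2]` is not zero, and `D`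
kills it.

Idea. Let `M_3` be the two-sided ideal generated by `L_3`. In characteristic zero `[M_3, A] ⊆ L_4`,
hence `[M_3, L_2] ⊆ L_5`, and `([a, [x, y] n], [y, [x, a] n])` has sum zero modulo `L_5` for `n` in
`M_3`. As `[a, b]^2` lies in `M_3`, we get `w ∈ L_4` and `δ(w) ≡ 5 [a, [y, z] [a, b]^2]` modulo `L_5`,
and the identity for `n` moves the letters around until `[a, [a, *] n] ≡ 0` shows up. The linear
functional on words with values `1, 3, 6` at `abaab, aabab, aaabb` (and `0` at all other words) kills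
`L_5` and takes the value `2` at `w`.
-/

namespace Pool.Agent.Results.MP_540755_al.NotInjective

/-- The free associative algebra `A_m = ℂ⟨x_0, …, x_{m-1}⟩`. -/
abbrev A (m : ℕ) : Type := FreeAlgebra ℂ (Fin m)

/-- Its lower central series: `L_1 = A_m` and `L_{k+1}` is the linear span of all `a b - b a` with `a`
in `A_m` and `b` in `L_k`. (The value at `0`, which is not used, is also everything.) -/
def L (m : ℕ) : ℕ → Submodule ℂ (A m)
  | 0 => ⊤
  | 1 => ⊤
  | k + 2 => Submodule.span ℂ {x | ∃ a b, b ∈ L m (k + 1) ∧ x = a * b - b * a}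

/-- The part of `A_m` of multidegree `p`: the span of the words which contain each `x_i` exactly
`p i` times. -/
def wt (m : ℕ) (p : Fin m → ℕ) : Submodule ℂ (A m) :=
  Submodule.span ℂ {x | ∃ u : List (Fin m), (∀ i, u.count i = p i) ∧
    x = (u.map (FreeAlgebra.ι ℂ)).prod}

/-- The commutator `[x_n, x_{n+1}]` of the last two of the generators `x_0, …, x_{n+1}` of
`A_{n+2}`. -/
def cc (n : ℕ) : A (n + 2) :=
  FreeAlgebra.ι ℂ ⟨n, by omega⟩ * FreeAlgebra.ι ℂ ⟨n + 1, by omega⟩ -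
    FreeAlgebra.ι ℂ ⟨n + 1, by omega⟩ * FreeAlgebra.ι ℂ ⟨n, by omega⟩

/-- `δ` is the derivation of `A_{n+2}` with `δ(x_i) = [x_n, x_{n+1}] x_i` for all `i`. -/
def IsDelta (n : ℕ) (δ : A (n + 2) → A (n + 2)) : Prop :=
  IsLinearMap ℂ δ ∧ (∀ f g, δ (f * g) = δ f * g + f * δ g) ∧
    ∀ i, δ (FreeAlgebra.ι ℂ i) = cc n * FreeAlgebra.ι ℂ i

theorem mem_L (m : ℕ) : ∀ (k : ℕ) (x : A m), x ∈ L m (k + 1) ↔ x ∈ N36.LC.L (A m) (k + 1)
  | 0, x => by
    show x ∈ (⊤ : Submodule ℂ (A m)) ↔ x ∈ (⊤ : AddSubgroup (A m))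
    simp
  | k + 1, x => by
    constructor
    · intro hx
      refine Submodule.span_induction (p := fun x _ => x ∈ N36.LC.L (A m) (k + 1 + 1))
        ?_ (zero_mem _) (fun _ _ _ _ => add_mem)
        (fun c x _ hx => N36.DE.L_smul ℂ (k + 1) c x hx)
        (show x ∈ Submodule.span ℂ _ from hx)
      rintro _ ⟨a, b, hb, rfl⟩
      exact N36.LC.L_comm_mem k a b ((mem_L m k b).mp hb)
    · intro hx
      refine AddSubgroup.closure_induction (p := fun x _ => x ∈ L m (k + 1 + 1))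
        ?_ (zero_mem _) (fun _ _ _ _ => add_mem) (fun _ _ => neg_mem)
        (show x ∈ AddSubgroup.closure _ from hx)
      rintro _ ⟨a, b, hb, rfl⟩
      exact Submodule.subset_span ⟨a, b, (mem_L m k b).mpr hb, rfl⟩

theorem delta_one {m : ℕ} (δ : A m →ₗ[ℂ] A m) (h : ∀ f g, δ (f * g) = δ f * g + f * δ g) :
    δ 1 = 0 := by
  have := h 1 1
  simpa using this

theorem delta_L {m : ℕ} (δ : A m →ₗ[ℂ] A m) (h : ∀ f g, δ (f * g) = δ f * g + f * δ g) :
    ∀ (k : ℕ) (x : A m), x ∈ L m (k + 1) → δ x ∈ L m (k + 1)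
  | 0, _, _ => Submodule.mem_top
  | k + 1, x, hx => by
    refine Submodule.span_induction (p := fun x _ => δ x ∈ L m (k + 1 + 1))
      ?_ ?_ ?_ ?_ (show x ∈ Submodule.span ℂ _ from hx)
    · rintro _ ⟨a, b, hb, rfl⟩
      have e : δ (a * b - b * a) = (δ a * b - b * δ a) + (a * δ b - δ b * a) := by
        rw [map_sub, h, h]
        abel
      rw [e]
      exact add_mem (Submodule.subset_span ⟨δ a, b, hb, rfl⟩)
        (Submodule.subset_span ⟨a, δ b, delta_L δ h k b hb, rfl⟩)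
    · rw [map_zero]
      exact zero_mem _
    · intro x y _ _ hx hy
      rw [map_add]
      exact add_mem hx hy
    · intro c x _ hx
      rw [map_smul]
      exact Submodule.smul_mem _ c hx

/-- a derivation with prescribed values on the generators -/
theorem exists_der {m : ℕ} (v : Fin m → A m) : ∃ δ : A m →ₗ[ℂ] A m,
    (∀ f g, δ (f * g) = δ f * g + f * δ g) ∧ ∀ i, δ (FreeAlgebra.ι ℂ i) = v i := by
  let φ : A m →ₐ[ℂ] TrivSqZeroExt (A m) (A m) :=
    FreeAlgebra.lift ℂ fun i => TrivSqZeroExt.inl (FreeAlgebra.ι ℂ i) + TrivSqZeroExt.inr (v i)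
  have hfst : ∀ f, (φ f).fst = f := by
    have h : (TrivSqZeroExt.fstHom ℂ (A m) (A m)).comp φ = AlgHom.id ℂ (A m) := by
      apply FreeAlgebra.hom_ext
      funext i
      simp [φ]
    intro f
    exact DFunLike.congr_fun h f
  let δ : A m →ₗ[ℂ] A m :=
    { toFun := fun f => (φ f).snd
      map_add' := fun f g => by rw [map_add, TrivSqZeroExt.snd_add]
      map_smul' := fun c f => by rw [map_smul, TrivSqZeroExt.snd_smul, RingHom.id_apply] }
  refine ⟨δ, ?_, ?_⟩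
  · intro f g
    show (φ (f * g)).snd = (φ f).snd * g + f * (φ g).snd
    rw [map_mul, TrivSqZeroExt.snd_mul, hfst, hfst, add_comm]
    rfl
  · intro i
    show (φ (FreeAlgebra.ι ℂ i)).snd = v i
    simp [φ]

theorem der_unique {m : ℕ} (δ ε : A m →ₗ[ℂ] A m)
    (hδ : ∀ f g, δ (f * g) = δ f * g + f * δ g) (hε : ∀ f g, ε (f * g) = ε f * g + f * ε g)
    (h : ∀ i, δ (FreeAlgebra.ι ℂ i) = ε (FreeAlgebra.ι ℂ i)) : δ = ε := by
  ext x
  induction x using FreeAlgebra.induction with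
  | grade0 r =>
    rw [Algebra.algebraMap_eq_smul_one, map_smul, map_smul, delta_one δ hδ, delta_one ε hε]
  | grade1 x => exact h x
  | mul a b ha hb => rw [hδ, hε, ha, hb]
  | add a b ha hb => rw [map_add, map_add, ha, hb]

/-- **Theorem.** For every `n` there is exactly one derivation `δ` of `A_{n+2}` as in the question, and
it maps every `L_k` into itself. For `n = 2` there is an element `T` of `L_4` of multidegree
`(3, 2, 0, 0)` with `T ∉ L_5` and `δ(T) ∈ L_5`: its class is a nonzero element of `B_4(A_4)` of this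
multidegree, and the map `D` induced by `δ` sends it to `0`. -/
theorem result :
    (∀ n, ∃! δ, IsDelta n δ) ∧
    (∀ n δ, IsDelta n δ → ∀ k ≥ 1, ∀ x ∈ L (n + 2) k, δ x ∈ L (n + 2) k) ∧
    ∃ T ∈ L (2 + 2) 4, T ∈ wt (2 + 2) ![3, 2, 0, 0] ∧ T ∉ L (2 + 2) 5 ∧
      ∀ δ, IsDelta 2 δ → δ T ∈ L (2 + 2) 5 := by
  refine ⟨?_, ?_, ?_⟩
  · intro n
    obtain ⟨δ, h1, h2⟩ := exists_der (m := n + 2) fun i => cc n * FreeAlgebra.ι ℂ i
    refine ⟨δ, ⟨⟨δ.map_add, δ.map_smul⟩, h1, h2⟩, ?_⟩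
    rintro ε ⟨g0, g1, g2⟩
    have := der_unique (IsLinearMap.mk' ε g0) δ g1 h1
      (fun i => by rw [IsLinearMap.mk'_apply, g2, h2])
    exact congrArg DFunLike.coe this
  · rintro n δ ⟨h0, h1, -⟩ k hk x hx
    obtain ⟨k, rfl⟩ := Nat.exists_eq_add_of_le' hk
    exact delta_L (IsLinearMap.mk' δ h0) h1 k x hx
  · refine ⟨N36.DE.ww ℂ, ?_, ?_, ?_, ?_⟩
    · rw [mem_L]
      exact N36.DE.M3_comm' ℂ _ _ (N36.DE.sq_M3 ℂ _ _)
    · have hword : ∀ u : List (Fin 4), (∀ i, u.count i = (![3, 2, 0, 0] : Fin 4 → ℕ) i) →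
          N36.DE.wd ℂ u ∈ wt (2 + 2) ![3, 2, 0, 0] :=
        fun u hu => Submodule.subset_span ⟨u, hu, rfl⟩
      unfold N36.DE.ww N36.DE.bk
      simp only [mul_sub, sub_mul, ← N36.DE.wd_append]
      refine sub_mem (sub_mem (sub_mem ?_ ?_) (sub_mem ?_ ?_))
        (sub_mem (sub_mem ?_ ?_) (sub_mem ?_ ?_)) <;>
      · apply hword
        decide
    · rw [mem_L]
      exact N36.DE.ww_notMem
    · rintro δ ⟨h0, h1, h2⟩
      rw [mem_L]
      have h := N36.DE.main_mem ℂ (FreeAlgebra.ι ℂ (0 : Fin 4)) (FreeAlgebra.ι ℂ (1 : Fin 4))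
        (FreeAlgebra.ι ℂ (2 : Fin 4)) (FreeAlgebra.ι ℂ (3 : Fin 4)) (IsLinearMap.mk' δ h0) h1
        (h2 0) (h2 1)
      have e : N36.DE.ww ℂ = FreeAlgebra.ι ℂ (0 : Fin 4) *
          ((FreeAlgebra.ι ℂ (0 : Fin 4) * FreeAlgebra.ι ℂ (1 : Fin 4) -
            FreeAlgebra.ι ℂ (1 : Fin 4) * FreeAlgebra.ι ℂ (0 : Fin 4)) *
          (FreeAlgebra.ι ℂ (0 : Fin 4) * FreeAlgebra.ι ℂ (1 : Fin 4) -
            FreeAlgebra.ι ℂ (1 : Fin 4) * FreeAlgebra.ι ℂ (0 : Fin 4))) -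
          (FreeAlgebra.ι ℂ (0 : Fin 4) * FreeAlgebra.ι ℂ (1 : Fin 4) -
            FreeAlgebra.ι ℂ (1 : Fin 4) * FreeAlgebra.ι ℂ (0 : Fin 4)) *
          (FreeAlgebra.ι ℂ (0 : Fin 4) * FreeAlgebra.ι ℂ (1 : Fin 4) -
            FreeAlgebra.ι ℂ (1 : Fin 4) * FreeAlgebra.ι ℂ (0 : Fin 4)) *
          FreeAlgebra.ι ℂ (0 : Fin 4) := by
        unfold N36.DE.ww N36.DE.bk
        rw [N36.DE.wd_single, N36.DE.wd_single]
      rw [e]
      exact h

end Pool.Agent.Results.MP_540755_al.NotInjective
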